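import Pool.Agent.Q64.Bous.Att

/-!
# MP_e4edaa_an, Q1: `P_θ 𝒜` is dense in `L²`

For the semi-dissipative two-dimensional Boussinesq system on the torus let `𝒜` be the union of the
weak omega-limit sets of the bounded subsets of `H × L²`. Then `P_θ 𝒜` is dense in `L²`; it is even
all of `L²`: for every mean-free `θ₀ ∈ L²` and every `n` there is a solution on `[-n, ∞)` with
`u(-n) = 0` and `θ(0) = θ₀`.
-/

set_option autoImplicit false

namespace Pool.Agent.Results.MP_e4edaa_an.ProjectionDense

open Pool.Agent.Q64.Bous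

/-- For all `L, ν, g > 0` the temperature components of the points of `𝒜` are all the mean-free
functions of `L²`, and (hence) they are dense in the space of mean-free functions of `L²`. -/
theorem result (L ν g : ℝ) (hL : 0 < L) (hν : 0 < ν) (_hg : 0 < g) :
    Prod.snd '' OmegaAttractor L ν g = {θ₀ : L2R | MeanFree θ₀} ∧
    Dense {θ : {θ : L2R // MeanFree θ} | (θ : L2R) ∈ Prod.snd '' OmegaAttractor L ν g} := by
  have h : Prod.snd '' OmegaAttractor L ν g = {θ₀ : L2R | MeanFree θ₀} := by
    ext θ₀
    constructor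
    · rintro ⟨p, hp, rfl⟩
      exact hp.2.1
    · intro h0
      obtain ⟨u₀, hu⟩ := mem_omegaAttractor (g := g) hL hν θ₀ h0
      exact ⟨(u₀, θ₀), hu, rfl⟩
  refine ⟨h, ?_⟩
  rw [h]
  have h2 : {θ : {θ : L2R // MeanFree θ} | (θ : L2R) ∈ {θ₀ : L2R | MeanFree θ₀}} = Set.univ := by
    ext θ
    simp
  rw [h2]
  exact dense_univ

end Pool.Agent.Results.MP_e4edaa_an.ProjectionDense
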